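import Mathlib

/-!
# The relations between the points of a box are generated by the short ones (helper142)
-/

set_option autoImplicit false
set_option linter.unusedSectionVars false

namespace Pool.Agent.Run7.h142.CT

open Finset

variable {J : Type} [Fintype J] [DecidableEq J] {P : Type} [Fintype P] [DecidableEq P]

/-- the length of an integral vector -/
def len (c : J → ℤ) : ℕ := ∑ j, (c j).natAbs

theorem len_add_le (a b : J → ℤ) : len (a + b) ≤ len a + len b := by
  unfold len
  rw [← Finset.sum_add_distrib]
  exact Finset.sum_le_sum fun j _ => Int.natAbs_add_le _ _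

theorem len_neg (a : J → ℤ) : len (-a) = len a := by
  unfold len
  exact Finset.sum_congr rfl fun j _ => Int.natAbs_neg _

theorem len_sub_le (a b : J → ℤ) : len (a - b) ≤ len a + len b := by
  rw [sub_eq_add_neg, ← len_neg b]
  exact len_add_le _ _

theorem len_single (j : J) (x : ℤ) : len (Pi.single j x : J → ℤ) = x.natAbs := by
  unfold len
  rw [Finset.sum_eq_single j]
  · rw [Pi.single_eq_same]
  · intro i _ hi
    rw [Pi.single_eq_of_ne hi, Int.natAbs_zero]
  · intro h
    exact absurd (Finset.mem_univ _) h

/-- the sum of the coefficients -/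
def tot : (J → ℤ) →+ ℤ where
  toFun c := ∑ j, c j
  map_zero' := by simp
  map_add' a b := by simp [Finset.sum_add_distrib]

theorem tot_single (j : J) (x : ℤ) : tot (Pi.single j x : J → ℤ) = x := by
  change ∑ i, (Pi.single j x : J → ℤ) i = x
  rw [Finset.sum_pi_single']
  simp

theorem len_parity (c : J → ℤ) : Even ((len c : ℤ) - tot c) := by
  unfold len
  change Even (((∑ j, (c j).natAbs : ℕ) : ℤ) - ∑ j, c j)
  push_cast
  rw [← Finset.sum_sub_distrib]
  refine Finset.even_sum _ fun j _ => ?_
  rcases abs_choice (c j) with h | h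
  · rw [h, sub_self]
    exact Even.zero
  · rw [h]
    exact ⟨-c j, by ring⟩

/-- short vectors -/
def Short (c : J → ℤ) : Prop := len c ≤ 4 ∧ len c ≠ 3

theorem short_of {c : J → ℤ} (h1 : len c ≤ 4) (h2 : Even (tot c)) : Short c := by
  refine ⟨h1, fun h3 => ?_⟩
  have h4 := (len_parity c).add h2
  rw [sub_add_cancel, h3] at h4
  revert h4
  decide

/-- the points of the box -/
def Box (M : P → ℕ) (v : P → ℤ) : Prop := ∀ i, |v i| ≤ M i ∧ Even ((M i : ℤ) - v i)

section

variable {M : P → ℕ} {I : J → Prop} {a : J → P → ℤ} {R : AddSubgroup (J → ℤ)}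

/-- **The relations are generated by the short ones.** -/
theorem closure_short (hbox : ∀ j, I j → Box M (a j))
    (hall : ∀ v, Box M v → ∃ j, I j ∧ (a j = v ∨ a j = -v))
    (hR : ∀ c, c ∈ R ↔ (∀ j, ¬ I j → c j = 0) ∧ ∀ i, ∑ j, c j * a j i = 0) :
    AddSubgroup.closure {c | c ∈ R ∧ Short c} = R := by
  classical
  refine le_antisymm ((AddSubgroup.closure_le _).2 fun c hc => hc.1) ?_
  set H := AddSubgroup.closure {c | c ∈ R ∧ Short c} with hH
  have hmem : ∀ c, c ∈ R → len c ≤ 4 → Even (tot c) → c ∈ H := fun c h1 h2 h3 =>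
    AddSubgroup.subset_closure ⟨h1, short_of h2 h3⟩
  -- the linear form
  let lin : (J → ℤ) →+ (P → ℤ) :=
    { toFun := fun c i => ∑ j, c j * a j i
      map_zero' := by funext i; simp
      map_add' := fun c c' => by
        funext i
        simp [add_mul, Finset.sum_add_distrib] }
  have hlin : ∀ j x, lin (Pi.single j x) = x • a j := by
    intro j x
    funext i
    change ∑ j', (Pi.single j x : J → ℤ) j' * a j' i = x • a j i
    rw [Finset.sum_eq_single j]
    · rw [Pi.single_eq_same, smul_eq_mul]
    · intro j' _ hj
      rw [Pi.single_eq_of_ne hj, zero_mul]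
    · intro h
      exact absurd (Finset.mem_univ _) h
  let Off : AddSubgroup (J → ℤ) :=
    { carrier := {c | ∀ j, ¬ I j → c j = 0}
      zero_mem' := fun _ _ => rfl
      add_mem' := fun {c c'} hc hc' j hj => by rw [Pi.add_apply, hc j hj, hc' j hj, add_zero]
      neg_mem' := fun {c} hc j hj => by rw [Pi.neg_apply, hc j hj, neg_zero] }
  have hR' : ∀ c, c ∈ R ↔ c ∈ Off ∧ lin c = 0 := by
    intro c
    rw [hR]
    refine and_congr Iff.rfl ?_
    rw [funext_iff]
    exact Iff.rfl
  have hoff : ∀ j x, I j → (Pi.single j x : J → ℤ) ∈ Off := by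
    intro j x hj i hi
    rw [Pi.single_eq_of_ne]
    rintro rfl
    exact hi hj
  -- the chosen vectors
  have hex : ∀ v : P → ℤ, ∃ e : J → ℤ, Box M v →
      e ∈ Off ∧ lin e = v ∧ len e ≤ 1 ∧ Odd (tot e) := by
    intro v
    by_cases hv : Box M v
    · obtain ⟨j, hj, h⟩ := hall v hv
      rcases h with h | h
      · refine ⟨Pi.single j 1, fun _ => ⟨hoff j 1 hj, ?_, ?_, ?_⟩⟩
        · rw [hlin, one_smul, h]
        · rw [len_single]
          rfl
        · rw [tot_single]
          exact odd_one
      · refine ⟨Pi.single j (-1), fun _ => ⟨hoff j _ hj, ?_, ?_, ?_⟩⟩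
        · rw [hlin, neg_smul, one_smul, h, neg_neg]
        · rw [len_single]
          rfl
        · rw [tot_single]
          exact ⟨-1, by norm_num⟩
    · exact ⟨0, fun h => absurd h hv⟩
  choose e he using hex
  -- four terms
  have hfour : ∀ v₁ v₂ v₃ v₄, Box M v₁ → Box M v₂ → Box M v₃ → Box M v₄ →
      v₁ + v₂ = v₃ + v₄ → e v₁ + e v₂ - (e v₃ + e v₄) ∈ H := by
    intro v₁ v₂ v₃ v₄ h1 h2 h3 h4 h
    obtain ⟨a1, b1, c1, d1⟩ := he v₁ h1
    obtain ⟨a2, b2, c2, d2⟩ := he v₂ h2
    obtain ⟨a3, b3, c3, d3⟩ := he v₃ h3
    obtain ⟨a4, b4, c4, d4⟩ := he v₄ h4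
    refine hmem _ ((hR' _).2 ⟨sub_mem (add_mem a1 a2) (add_mem a3 a4), ?_⟩) ?_ ?_
    · rw [map_sub, map_add, map_add, b1, b2, b3, b4, h, sub_self]
    · have e1 := len_sub_le (e v₁ + e v₂) (e v₃ + e v₄)
      have e2 := len_add_le (e v₁) (e v₂)
      have e3 := len_add_le (e v₃) (e v₄)
      omega
    · rw [map_sub, map_add, map_add]
      exact (d1.add_odd d2).sub (d3.add_odd d4)
  -- the representation of the basis vectors
  have hone : ∀ j, I j → Pi.single j 1 - e (a j) ∈ H := by
    intro j hj
    obtain ⟨a1, b1, c1, d1⟩ := he _ (hbox j hj)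
    refine hmem _ ((hR' _).2 ⟨sub_mem (hoff j 1 hj) a1, ?_⟩) ?_ ?_
    · rw [map_sub, hlin, one_smul, b1, sub_self]
    · have e1 := len_sub_le (Pi.single j 1) (e (a j))
      rw [len_single] at e1
      change _ ≤ 1 + _ at e1
      omega
    · rw [map_sub, tot_single]
      exact odd_one.sub_odd d1
  -- opposite vectors
  have hneg : ∀ v, Box M v → Box M (-v) := by
    intro v hv i
    refine ⟨?_, ?_⟩
    · rw [Pi.neg_apply, abs_neg]
      exact (hv i).1
    · have h1 := (hv i).2
      obtain ⟨m, hm⟩ := h1
      exact ⟨M i - m, by rw [Pi.neg_apply]; linarith⟩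
  have hopp : ∀ v, Box M v → e v + e (-v) ∈ H := by
    intro v hv
    obtain ⟨a1, b1, c1, d1⟩ := he v hv
    obtain ⟨a2, b2, c2, d2⟩ := he (-v) (hneg v hv)
    refine hmem _ ((hR' _).2 ⟨add_mem a1 a2, ?_⟩) ?_ ?_
    · rw [map_add, b1, b2, add_neg_cancel]
    · have e1 := len_add_le (e v) (e (-v))
      omega
    · rw [map_add]
      exact d1.add_odd d2
  -- the top
  let T : P → ℤ := fun i => M i
  have hT : Box M T := fun i => by
    refine ⟨?_, ?_⟩
    · change |(M i : ℤ)| ≤ M i
      rw [abs_of_nonneg (by positivity)]
    · change Even ((M i : ℤ) - M i)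
      rw [sub_self]
      exact Even.zero
  let D : P → (J → ℤ) := fun i => e T - e (T - Pi.single i 2)
  let w : (P → ℤ) → P → ℤ := fun v i => (M i - v i) / 2
  have hw : ∀ v, Box M v → ∀ i, 2 * w v i = M i - v i := by
    intro v hv i
    have h1 := (hv i).2
    exact Int.mul_ediv_cancel' h1.two_dvd
  have hA : ∀ n : ℕ, ∀ v, Box M v → (∑ i, (M i - v i)) ≤ n →
      e v - (e T - ∑ i, w v i • D i) ∈ H := by
    intro n
    induction n with
    | zero =>
      intro v hv hn
      have h1 : ∀ i, v i = M i := by
        intro i
        have h2 : ∀ i ∈ Finset.univ, 0 ≤ (M i : ℤ) - v i := fun i _ => by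
          have := (abs_le.1 (hv i).1).2
          linarith
        have h3 : ∑ i, ((M i : ℤ) - v i) = 0 := le_antisymm (by exact_mod_cast hn)
          (Finset.sum_nonneg h2)
        have h4 := (Finset.sum_eq_zero_iff_of_nonneg h2).1 h3 i (Finset.mem_univ i)
        linarith
      have h2 : v = T := funext h1
      have h3 : ∀ i, w v i = 0 := by
        intro i
        change ((M i : ℤ) - v i) / 2 = 0
        rw [h1 i, sub_self]
        rfl
      rw [Finset.sum_eq_zero fun i _ => by rw [h3 i, zero_smul], sub_zero, h2, sub_self]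
      exact zero_mem _
    | succ n ih =>
      intro v hv hn
      by_cases h0 : v = T
      · refine ih v hv ?_
        rw [h0]
        change ∑ i, ((M i : ℤ) - M i) ≤ _
        simp
      · obtain ⟨i, hi⟩ : ∃ i, v i ≠ T i := by
          by_contra h
          push Not at h
          exact h0 (funext h)
        have hi' : v i < M i := lt_of_le_of_ne (abs_le.1 (hv i).1).2 hi
        have hpar : v i + 2 ≤ M i := by
          obtain ⟨m, hm⟩ := (hv i).2
          omega
        let v' : P → ℤ := v + Pi.single i 2
        have hv'i : v' i = v i + 2 := by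
          change v i + (Pi.single i 2 : P → ℤ) i = _
          rw [Pi.single_eq_same]
        have hv'o : ∀ i', i' ≠ i → v' i' = v i' := by
          intro i' h
          change v i' + (Pi.single i 2 : P → ℤ) i' = _
          rw [Pi.single_eq_of_ne h, add_zero]
        have hv' : Box M v' := by
          intro i'
          by_cases h : i' = i
          · subst h
            rw [hv'i]
            have h1 := abs_le.1 (hv i').1
            refine ⟨abs_le.2 ⟨by linarith, hpar⟩, ?_⟩
            obtain ⟨m, hm⟩ := (hv i').2
            exact ⟨m - 1, by linarith⟩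
          · rw [hv'o i' h]
            exact hv i'
        have hT' : Box M (T - Pi.single i 2) := by
          intro i'
          by_cases h : i' = i
          · subst h
            have h1 : (T - Pi.single i' 2 : P → ℤ) i' = (M i' : ℤ) - 2 := by
              rw [Pi.sub_apply, Pi.single_eq_same]
            rw [h1]
            have h2 := abs_le.1 (hv i').1
            refine ⟨abs_le.2 ⟨by linarith, by linarith⟩, ⟨1, by ring⟩⟩
          · have h1 : (T - Pi.single i 2 : P → ℤ) i' = (M i' : ℤ) := by
              rw [Pi.sub_apply, Pi.single_eq_of_ne h, sub_zero]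
            rw [h1]
            exact hT i'
        have h4 := hfour v T v' (T - Pi.single i 2) hv hT hv' hT' (by
          change v + T = v + Pi.single i 2 + (T - Pi.single i 2)
          abel)
        have h5 : (∑ i, ((M i : ℤ) - v' i)) ≤ n := by
          have h6 : ∑ i', ((M i' : ℤ) - v' i') = ∑ i', ((M i' : ℤ) - v i') - 2 := by
            have h7 : ∀ i', (M i' : ℤ) - v' i' = (M i' - v i') - (Pi.single i 2 : P → ℤ) i' := by
              intro i'
              change (M i' : ℤ) - (v i' + (Pi.single i 2 : P → ℤ) i') = _
              ring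
            rw [Finset.sum_congr rfl fun i' _ => h7 i', Finset.sum_sub_distrib,
              Finset.sum_pi_single']
            simp
          rw [h6]
          push_cast at hn
          linarith
        have h6 := ih v' hv' h5
        have h7 : ∑ i', w v i' • D i' = ∑ i', w v' i' • D i' + D i := by
          have h8 : ∀ i', w v i' • D i' = w v' i' • D i' + if i' = i then D i else 0 := by
            intro i'
            by_cases h : i' = i
            · subst h
              rw [if_pos rfl]
              have h9 : w v i' = w v' i' + 1 := by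
                have e1 := hw v hv i'
                have e2 := hw v' hv' i'
                rw [hv'i] at e2
                linarith
              rw [h9, add_smul, one_smul]
            · rw [if_neg h, add_zero]
              change (((M i' : ℤ) - v i') / 2) • _ = (((M i' : ℤ) - v' i') / 2) • _
              rw [hv'o i' h]
          rw [Finset.sum_congr rfl fun i' _ => h8 i', Finset.sum_add_distrib,
            Finset.sum_ite_eq' Finset.univ i]
          simp
        have h8 : e v - (e T - ∑ i, w v i • D i) =
            (e v + e T - (e v' + e (T - Pi.single i 2))) +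
              (e v' - (e T - ∑ i, w v' i • D i)) := by
          rw [h7]
          change _ - (_ - (_ + (e T - e (T - Pi.single i 2)))) = _
          abel
        rw [h8]
        exact add_mem h4 h6
  have hA' : ∀ v, Box M v → e v - (e T - ∑ i, w v i • D i) ∈ H := by
    intro v hv
    refine hA (∑ i, ((M i : ℤ) - v i)).toNat v hv ?_
    exact Int.self_le_toNat _
  -- the relation
  intro c hc
  obtain ⟨hc1, hc2⟩ := (hR c).1 hc
  have h1 : c = ∑ j, c j • (Pi.single j 1 : J → ℤ) := by
    funext i
    rw [Finset.sum_apply]
    simp only [Pi.smul_apply, smul_eq_mul]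
    rw [Finset.sum_eq_single i]
    · rw [Pi.single_eq_same, mul_one]
    · intro j _ hj
      rw [Pi.single_eq_of_ne (Ne.symm hj), mul_zero]
    · intro h
      exact absurd (Finset.mem_univ _) h
  have h2 : c - ∑ j, c j • (e T - ∑ i, w (a j) i • D i) ∈ H := by
    nth_rewrite 1 [h1]
    rw [← Finset.sum_sub_distrib]
    refine sum_mem fun j _ => ?_
    by_cases hj : I j
    · rw [← smul_sub]
      refine zsmul_mem ?_ _
      have h3 : (Pi.single j 1 : J → ℤ) - (e T - ∑ i, w (a j) i • D i) =
          (Pi.single j 1 - e (a j)) + (e (a j) - (e T - ∑ i, w (a j) i • D i)) := by abel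
      rw [h3]
      exact add_mem (hone j hj) (hA' _ (hbox j hj))
    · rw [hc1 j hj, zero_smul, zero_smul, sub_self]
      exact zero_mem _
  let S : ℤ := ∑ j, c j
  let K : P → ℤ := fun i => ∑ j, c j * w (a j) i
  have h3 : ∑ j, c j • (e T - ∑ i, w (a j) i • D i) = S • e T - ∑ i, K i • D i := by
    simp only [smul_sub]
    rw [Finset.sum_sub_distrib, ← Finset.sum_smul]
    congr 1
    simp only [Finset.smul_sum, smul_smul]
    rw [Finset.sum_comm]
    refine Finset.sum_congr rfl fun i _ => ?_
    rw [← Finset.sum_smul]
  have hK : ∀ i, 2 * K i = S * M i := by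
    intro i
    have h4 : ∀ j, 2 * (c j * w (a j) i) = c j * M i - c j * a j i := by
      intro j
      by_cases hj : I j
      · have := hw (a j) (hbox j hj) i
        calc 2 * (c j * w (a j) i) = c j * (2 * w (a j) i) := by ring
          _ = _ := by rw [this]; ring
      · rw [hc1 j hj]
        ring
    change 2 * ∑ j, c j * w (a j) i = (∑ j, c j) * M i
    rw [Finset.mul_sum, Finset.sum_congr rfl fun j _ => h4 j, Finset.sum_sub_distrib, hc2 i,
      sub_zero, Finset.sum_mul]
  have h4 : S • e T - ∑ i, K i • D i ∈ H := by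
    rcases Int.even_or_odd S with hS | hS
    · obtain ⟨m, hm⟩ := hS
      have h5 : ∀ i, K i = m * M i := by
        intro i
        have := hK i
        rw [hm] at this
        linarith
      have h6 : S • e T - ∑ i, K i • D i =
          m • ((e T + e (-T)) - (e (-T) - (e T - ∑ i, w (-T) i • D i))) := by
        have h7 : ∀ i, w (-T) i = M i := by
          intro i
          have := hw (-T) (hneg T hT) i
          have h8 : (-T) i = -(M i : ℤ) := rfl
          rw [h8] at this
          linarith
        have h8 : ∑ i, K i • D i = m • ∑ i, w (-T) i • D i := by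
          rw [Finset.smul_sum]
          refine Finset.sum_congr rfl fun i _ => ?_
          rw [h7, h5, mul_smul]
        rw [h8, hm, add_smul]
        simp only [smul_sub, smul_add]
        abel
      rw [h6]
      exact zsmul_mem (sub_mem (hopp T hT) (hA' _ (hneg T hT))) _
    · have h5 : ∀ i, Even (M i : ℤ) := by
        intro i
        have h6 : Even (S * M i) := ⟨K i, by rw [← hK i]; ring⟩
        rcases Int.even_mul.1 h6 with h7 | h7
        · exact absurd h7 (Int.not_even_iff_odd.2 hS)
        · exact h7
      have h0 : Box M (0 : P → ℤ) := fun i => by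
        refine ⟨by simp, ?_⟩
        rw [Pi.zero_apply, sub_zero]
        exact h5 i
      have h6 : S • e T - ∑ i, K i • D i =
          S • (e 0 - (e 0 - (e T - ∑ i, w 0 i • D i))) := by
        have h7 : ∀ i, K i = S * w 0 i := by
          intro i
          have e1 := hw 0 h0 i
          have e2 := hK i
          rw [Pi.zero_apply, sub_zero] at e1
          rw [← e1] at e2
          linarith
        have h8 : ∑ i, K i • D i = S • ∑ i, w 0 i • D i := by
          rw [Finset.smul_sum]
          refine Finset.sum_congr rfl fun i _ => ?_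
          rw [h7, mul_smul]
        rw [h8, sub_sub_cancel, smul_sub]
      rw [h6]
      refine zsmul_mem (sub_mem ?_ (hA' _ h0)) _
      obtain ⟨a1, b1, c1, d1⟩ := he 0 h0
      refine AddSubgroup.subset_closure ⟨(hR' _).2 ⟨a1, b1⟩, ?_, ?_⟩
      · omega
      · omega
  have h5 : c = (c - ∑ j, c j • (e T - ∑ i, w (a j) i • D i)) +
      ∑ j, c j • (e T - ∑ i, w (a j) i • D i) := by abel
  rw [h5]
  refine add_mem h2 ?_
  rw [h3]
  exact h4

end

end Pool.Agent.Run7.h142.CT
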