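import Pool.Agent.Run7.h142.GT.Defs

/-!
# Complete families of Newton polygons, and the Tate conjecture in codimension two: definitions
(helper142)
-/

set_option autoImplicit false

open CategoryTheory AlgebraicGeometry NumberField

universe u v

namespace Pool.Agent.Run7.h142.CT

open Pool.Agent.H914 Pool.Agent.W534 Pool.Agent.TH121.KT
  Pool.Agent.Run7.h142.LT Pool.Agent.Run7.h142.GT VarClass Obj WeilCohomology

/-- `h` is a possible Newton polygon, with slopes in `(1 / N) ℤ`, of Weil numbers in the CM field
`F`: the slope at the embedding `τ` in the algebraic closure of `ℚ_p` is `(N - h τ) / (2 N)`. It is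
between `0` and `1` (`bound`) and in `(1 / N) ℤ` (`integral`), the sum of the slopes at complex
conjugate embeddings is `1` (`conj`), and the slope depends only on the place defined by the embedding
(`galois`). By the theorem of Honda and Tate all such functions come from Weil numbers. -/
structure IsNewton (p : ℕ) [Fact p.Prime] (F : Type) [Field F] [NumberField F] [IsCMField F]
    (N : ℕ) (h : (F →+* PadicAlgCl p) → ℤ) : Prop where
  bound : ∀ τ, |h τ| ≤ N
  integral : ∀ τ, Even ((N : ℤ) - h τ)
  conj : ∀ τ, h (τ.comp (IsCMField.complexConj F : F →+* F)) = - h τ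
  galois : ∀ (g : PadicAlgCl p ≃ₐ[ℚ_[p]] PadicAlgCl p) (τ : F →+* PadicAlgCl p),
    h ((g : PadicAlgCl p →+* PadicAlgCl p).comp τ) = h τ

/-- The number `α j` is in the field `E k`, and its Newton polygon is `h`: its normalized valuation is
`h / (2 N)` times that of `p⁻¹`. -/
def HasPolygon (p : ℕ) [Fact p.Prime] {κ : Type} {E : κ → Type} [∀ k, Field (E k)] {s : ℕ}
    {f : Fin s → κ} (α : ∀ j, E (f j)) (n : Fin s → ℕ) (N : ℕ) (j : Fin s) (k : κ)
    (h : (E k →+* PadicAlgCl p) → ℤ) : Prop :=
  f j = k ∧ ∀ τ : (∀ k, E k →+* PadicAlgCl p),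
    slope p α n j τ = (h (τ k) : ℝ) / (2 * N) * Real.log p

/-- The family of the numbers `α j` in the fields `E k` is complete, of level `N`: they have Newton
polygons with slopes in `(1 / N) ℤ`, and for each field `E k` each such Newton polygon, or its
complex conjugate, is the Newton polygon of one of them. For `N = 1` these are the ordinary ones. -/
structure IsComplete (p : ℕ) [Fact p.Prime] {κ : Type} {E : κ → Type} [∀ k, Field (E k)]
    [∀ k, NumberField (E k)] [∀ k, IsCMField (E k)] {s : ℕ} {f : Fin s → κ} (α : ∀ j, E (f j))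
    (n : Fin s → ℕ) (N : ℕ) : Prop where
  pos : 0 < N
  polygon : ∀ j, ∃ h, IsNewton p (E (f j)) N h ∧ HasPolygon p α n N j (f j) h
  all : ∀ k h, IsNewton p (E k) N h →
    ∃ j, HasPolygon p α n N j k h ∨ HasPolygon p α n N j k fun τ => - h τ

/-- The Tate conjecture holds in codimension one for the products of two, and in codimension two for
the products of four of the varieties `X j` (which may be equal). -/
structure TateForFour {k : Type u} [Field k] {𝒱 : VarClass k} {ops : CycleOps 𝒱}
    {W : WeilCohomology.{u, v} ops} {p : ℕ} (Φ : FrobSystem W p) {s : ℕ} (X : Fin s → 𝒱.Obj) :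
    Prop where
  two : ∀ i j, TateTo Φ (prodOf X i [j]) 1 1
  four : ∀ i j i' j', TateTo Φ (prodOf X i [j, i', j']) 1 2

end Pool.Agent.Run7.h142.CT
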