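import Pool.Agent.Run7.h142.CT.Newton
import Pool.Agent.Run7.h142.GT.Times

/-!
# The Tate conjecture for complete families is the Tate conjecture in codimension two (helper142)
-/

set_option autoImplicit false
set_option linter.unusedSectionVars false

open CategoryTheory AlgebraicGeometry NumberField
open Pool.Agent.W552 hiding cj cj_cj

universe u v

namespace Pool.Agent.Run7.h142.CT

open Pool.Agent.H914 Pool.Agent.W534 Pool.Agent.TH121.KT
  Pool.Agent.Run7.h142.LT Pool.Agent.Run7.h142.GT VarClass Obj WeilCohomology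

variable {k : Type u} [Field k] {𝒱 : VarClass k} {ops : CycleOps 𝒱}
  {W : WeilCohomology.{u, v} ops} {p : ℕ} [Fact p.Prime] {Φ : FrobSystem W p}
  {κ : Type} {E : κ → Type} [∀ k, Field (E k)] [∀ k, NumberField (E k)] [∀ k, IsCMField (E k)]
  {s : ℕ} {f : Fin s → κ} {α : ∀ j, E (f j)} {X : Fin s → 𝒱.Obj} {e : Fin s → ℕ}

/-- the short relations -/
def shortRel (p : ℕ) [Fact p.Prime] {κ : Type} {E : κ → Type} [∀ k, Field (E k)] {s : ℕ}
    {f : Fin s → κ} (α : ∀ j, E (f j)) (n : Fin s → ℕ) (k : κ) : Set (Fin s → ℤ) :=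
  {c | c ∈ relations p α n k ∧ Short c}

theorem degOf_one (c : Fin s → ℤ) : degOf (fun _ => 1) c = len c := by
  unfold degOf len
  exact Finset.sum_congr rfl fun j _ => mul_one _

theorem length_listOf (c : Fin s → ℤ) : (listOf c).length = len c := by
  unfold listOf len
  rw [List.length_flatMap]
  have h1 : (fun j : Fin s => (List.replicate (c j).natAbs j).length) = fun j => (c j).natAbs := by
    funext j
    rw [List.length_replicate]
  rw [h1, Fin.sum_univ_def]

theorem list_two {l : List (Fin s)} (hT : TateForFour Φ X) (hl : l.length = 2) :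
    TateForList Φ X l 1 := by
  intro i l' h
  subst h
  match l', hl with
  | [j], _ => exact hT.two i j

theorem list_four {l : List (Fin s)} (hT : TateForFour Φ X) (hl : l.length = 4) :
    TateForList Φ X l 2 := by
  intro i l' h
  subst h
  match l', hl with
  | [j, i', j'], _ => exact hT.four i j i' j'

theorem gens_of_four (hT : TateForFour Φ X) {n : Fin s → ℕ} :
    TateForGenerators Φ X (fun _ => 1) (shortRel p α n) := by
  refine ⟨fun j => hT.two j j, fun k c hc hev => ?_, fun k k' c hc c' hc' ho ho' => ?_⟩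
  · rw [degOf_one] at hev ⊢
    have h1 := hc.2.1
    have h2 := hc.2.2
    obtain ⟨m, hm⟩ := hev
    have h3 : len c = 0 ∨ len c = 2 ∨ len c = 4 := by omega
    rcases h3 with h3 | h3 | h3
    · intro i l' h
      have h4 := length_listOf c
      rw [h, h3] at h4
      exact absurd h4 (by simp)
    · rw [h3]
      exact list_two hT (by rw [length_listOf, h3])
    · rw [h3]
      exact list_four hT (by rw [length_listOf, h3])
  · rw [degOf_one] at ho ho' ⊢
    rw [degOf_one]
    have h1 := hc.2.1
    have h2 := hc.2.2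
    have h1' := hc'.2.1
    have h2' := hc'.2.2
    obtain ⟨m, hm⟩ := ho
    obtain ⟨m', hm'⟩ := ho'
    have h3 : len c = 1 := by omega
    have h4 : len c' = 1 := by omega
    rw [h3, h4]
    exact list_two hT (by rw [List.length_append, length_listOf, length_listOf, h3, h4])

/-- **The Tate conjecture in codimension two.** -/
theorem tate_iff_four [IsAlgClosed W.K] [Fintype κ]
    (hX : HaveWeilNumbers (K := fun j => E (f j)) Φ α X (fun _ => 1) e)
    (hα : IsPNumber p α fun _ => 1) {L : IntermediateField ℚ (AlgebraicClosure ℚ)}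
    (hE : NoRigidPairsOver E L) {N : ℕ} (hc : IsComplete p α (degs Φ X e) N) :
    (∀ Z, IsProduct W X Z → ∀ b m, TateTo Φ Z b m) ↔ TateForFour Φ X := by
  constructor
  · intro h
    exact ⟨fun i j => h _ (isProduct_prodOf X i [j]) _ _,
      fun i j i' j' => h _ (isProduct_prodOf X i [j, i', j']) _ _⟩
  · intro hT
    exact (tate_products_iff hX hα hE (B := shortRel p α (degs Φ X e))
      fun k => closure_complete hc k).2 (gens_of_four hT)

/-- **Products with other varieties.** -/
theorem tate_times_four [IsAlgClosed W.K] [Fintype κ] {ι : AlgebraicClosure ℚ →+* PadicAlgCl p}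
    (hX : HaveWeilNumbers (K := fun j => E (f j)) Φ α X (fun _ => 1) e)
    (hα : IsPNumber p α fun _ => 1) {L : IntermediateField ℚ (AlgebraicClosure ℚ)}
    (hE : NoRigidPairsOver E L) {N : ℕ} (hN : Odd N) (hc : IsComplete p α (degs Φ X e) N)
    (hT : TateForFour Φ X) {Z U : 𝒱.Obj} (hZ : IsProduct W X Z) (hU : FrobeniusSlopes Φ ι L U)
    (b m : ℕ) :
    TateTo Φ (Z.prod U) b m ↔ ∀ i ≤ m, HasCycle W Z i → TateTo Φ U b (m - i) :=
  tate_times hX hα hE (gens_of_four hT) (fun k => closure_complete hc k)
    (fun k c hcc => by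
      rw [degOf_one]
      exact even_len hc hN hcc.1) hZ hU b m

end Pool.Agent.Run7.h142.CT
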