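import Pool.Agent.Run7.h142.CT.Defs
import Pool.Agent.Run7.h142.CT.Comb
import Pool.Agent.Run7.h142.GT.Bal

/-!
# The group of the relations of a complete family is generated by the short ones (helper142)
-/

set_option autoImplicit false
set_option linter.unusedSectionVars false

open CategoryTheory AlgebraicGeometry NumberField
open Pool.Agent.W552 hiding cj cj_cj

universe u v

namespace Pool.Agent.Run7.h142.CT

open Pool.Agent.H914 Pool.Agent.W534 Pool.Agent.TH121.KT
  Pool.Agent.Run7.h142.LT Pool.Agent.Run7.h142.GT VarClass Obj WeilCohomology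

section places

variable {p : ℕ} [Fact p.Prime] {F : Type} [Field F] [NumberField F] [IsCMField F]

/-- the group of the local automorphisms -/
abbrev Loc (p : ℕ) [Fact p.Prime] := PadicAlgCl p ≃ₐ[ℚ_[p]] PadicAlgCl p

/-- the action -/
noncomputable def act (g : Loc p) (τ : F →+* PadicAlgCl p) : F →+* PadicAlgCl p :=
  (g : PadicAlgCl p →+* PadicAlgCl p).comp τ

theorem act_one (τ : F →+* PadicAlgCl p) : act 1 τ = τ := by
  ext x
  rfl

theorem act_mul (g g' : Loc p) (τ : F →+* PadicAlgCl p) : act (g * g') τ = act g (act g' τ) := by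
  ext x
  rfl

theorem act_inv (g : Loc p) (τ : F →+* PadicAlgCl p) : act g⁻¹ (act g τ) = τ := by
  rw [← act_mul, inv_mul_cancel, act_one]

theorem cj_act (g : Loc p) (τ : F →+* PadicAlgCl p) : cj (act g τ) = act g (cj τ) := rfl

/-- the pairs of places -/
def pl (p : ℕ) [Fact p.Prime] (F : Type) [Field F] [NumberField F] [IsCMField F] :
    Setoid (F →+* PadicAlgCl p) where
  r τ τ' := ∃ g : Loc p, τ' = act g τ ∨ τ' = act g (cj τ)
  iseqv := by
    constructor
    · intro τ
      exact ⟨1, Or.inl (act_one τ).symm⟩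
    · rintro τ τ' ⟨g, h | h⟩
      · exact ⟨g⁻¹, Or.inl (by rw [h, act_inv])⟩
      · refine ⟨g⁻¹, Or.inr ?_⟩
        rw [h, cj_act, cj_cj, act_inv]
    · rintro τ τ' τ'' ⟨g, h | h⟩ ⟨g', h' | h'⟩
      · exact ⟨g' * g, Or.inl (by rw [h', h, act_mul])⟩
      · exact ⟨g' * g, Or.inr (by rw [h', h, cj_act, act_mul])⟩
      · exact ⟨g' * g, Or.inr (by rw [h', h, act_mul])⟩
      · refine ⟨g' * g, Or.inl ?_⟩
        rw [h', h, cj_act, cj_cj, act_mul]

/-- the place is equal to its conjugate -/
def SC (τ : F →+* PadicAlgCl p) : Prop := ∃ g : Loc p, cj τ = act g τ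

theorem newton_sc {N : ℕ} {h : (F →+* PadicAlgCl p) → ℤ} (hh : IsNewton p F N h)
    {τ : F →+* PadicAlgCl p} (hτ : SC τ) : h τ = 0 := by
  obtain ⟨g, hg⟩ := hτ
  have h1 : h (cj τ) = - h τ := hh.conj τ
  have h2 : h (act g τ) = h τ := hh.galois g τ
  rw [hg, h2] at h1
  linarith

/-- a class of embeddings -/
abbrev Cl (p : ℕ) [Fact p.Prime] (F : Type) [Field F] [NumberField F] [IsCMField F] :=
  Quotient (pl p F)

/-- the representative -/
noncomputable def rp (q : Cl p F) : F →+* PadicAlgCl p := Quotient.out q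

/-- the class -/
def mkc (τ : F →+* PadicAlgCl p) : Cl p F := Quotient.mk (pl p F) τ

theorem mkc_rp (q : Cl p F) : mkc (rp q) = q := Quotient.out_eq q

theorem mkc_act (g : Loc p) (τ : F →+* PadicAlgCl p) : mkc (act g τ) = mkc τ :=
  (Quotient.sound (s := pl p F) ⟨g, Or.inl rfl⟩).symm

theorem mkc_cj (τ : F →+* PadicAlgCl p) : mkc (cj τ) = mkc τ :=
  (Quotient.sound (s := pl p F) ⟨1, Or.inr (act_one _).symm⟩).symm

theorem rp_mkc (τ : F →+* PadicAlgCl p) :
    ∃ g : Loc p, rp (mkc τ) = act g τ ∨ rp (mkc τ) = act g (cj τ) := by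
  have h1 : (pl p F).r (rp (mkc τ)) τ := Quotient.mk_out (s := pl p F) τ
  exact (pl p F).symm h1

/-- exactly one of the embeddings and its conjugate is over the place of the representative -/
theorem excl {τ : F →+* PadicAlgCl p} (hsc : ¬ SC (rp (mkc τ)))
    (h1 : ∃ g : Loc p, rp (mkc τ) = act g τ) (h2 : ∃ g : Loc p, rp (mkc τ) = act g (cj τ)) :
    False := by
  obtain ⟨g, hg⟩ := h1
  obtain ⟨g', hg'⟩ := h2
  refine hsc ⟨g * g'⁻¹, ?_⟩
  rw [hg, cj_act, act_mul, ← hg, hg', act_inv]

/-- the values of a Newton polygon are determined by those at the representatives -/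
theorem newton_rp (τ : F →+* PadicAlgCl p) : ∃ ε : ℤ, ∀ (N : ℕ) (h : (F →+* PadicAlgCl p) → ℤ),
    IsNewton p F N h → h τ = ε * h (rp (mkc τ)) := by
  obtain ⟨g, hg | hg⟩ := rp_mkc τ
  · refine ⟨1, fun N h hh => ?_⟩
    rw [hg, one_mul]
    exact (hh.galois g τ).symm
  · refine ⟨-1, fun N h hh => ?_⟩
    have h1 : h (act g (cj τ)) = h (cj τ) := hh.galois g (cj τ)
    have h2 : h (cj τ) = - h τ := hh.conj τ
    rw [hg, h1, h2]
    ring

/-- the index set of the box -/
abbrev PP (p : ℕ) [Fact p.Prime] (F : Type) [Field F] [NumberField F] [IsCMField F] :=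
  {q : Cl p F // ¬ SC (rp q)}

open Classical in
/-- the extension by zero -/
noncomputable def exv (v : PP p F → ℤ) (q : Cl p F) : ℤ := if h : ¬ SC (rp q) then v ⟨q, h⟩ else 0

open Classical in
/-- the function with given values -/
noncomputable def fn (v : PP p F → ℤ) (τ : F →+* PadicAlgCl p) : ℤ :=
  if ∃ g : Loc p, rp (mkc τ) = act g τ then exv v (mkc τ) else - exv v (mkc τ)

theorem fn_rp (v : PP p F → ℤ) (q : PP p F) : fn v (rp q.1) = v q := by
  classical
  unfold fn
  rw [if_pos ⟨1, by rw [mkc_rp, act_one]⟩, mkc_rp]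
  unfold exv
  rw [dif_pos q.2]

theorem fn_newton {N : ℕ} {h₀ : (F →+* PadicAlgCl p) → ℤ} (h0 : IsNewton p F N h₀)
    {v : PP p F → ℤ} (hv : Box (fun _ => N) v) : IsNewton p F N (fn v) := by
  classical
  have hex : ∀ q, |exv v q| ≤ N ∧ Even ((N : ℤ) - exv v q) ∧ Even ((N : ℤ) - - exv v q) := by
    intro q
    unfold exv
    by_cases h : ¬ SC (rp q)
    · rw [dif_pos h]
      obtain ⟨h1, m, hm⟩ := hv ⟨q, h⟩
      exact ⟨h1, ⟨m, hm⟩, ⟨N - m, by linarith⟩⟩
    · rw [dif_neg h]
      have h1 : SC (rp q) := not_not.1 h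
      have h2 := h0.integral (rp q)
      rw [newton_sc h0 h1, sub_zero] at h2
      refine ⟨by simp, by rwa [sub_zero], by rwa [neg_zero, sub_zero]⟩
  refine ⟨fun τ => ?_, fun τ => ?_, fun τ => ?_, fun g τ => ?_⟩
  · unfold fn
    split_ifs
    · exact (hex _).1
    · rw [abs_neg]
      exact (hex _).1
  · unfold fn
    split_ifs
    · exact (hex _).2.1
    · exact (hex _).2.2
  · change fn v (cj τ) = - fn v τ
    unfold fn
    rw [mkc_cj]
    by_cases hsc : SC (rp (mkc τ))
    · have h1 : exv v (mkc τ) = 0 := by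
        unfold exv
        rw [dif_neg (not_not.2 hsc)]
      rw [h1]
      simp
    · by_cases h1 : ∃ g : Loc p, rp (mkc τ) = act g τ
      · rw [if_pos h1, if_neg fun h2 => excl hsc h1 h2]
      · have h2 : ∃ g : Loc p, rp (mkc τ) = act g (cj τ) := by
          obtain ⟨g, hg | hg⟩ := rp_mkc τ
          · exact absurd ⟨g, hg⟩ h1
          · exact ⟨g, hg⟩
        rw [if_neg h1, if_pos h2, neg_neg]
  · change fn v (act g τ) = fn v τ
    unfold fn
    rw [mkc_act]
    have h1 : (∃ g' : Loc p, rp (mkc τ) = act g' (act g τ)) ↔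
        ∃ g' : Loc p, rp (mkc τ) = act g' τ := by
      constructor
      · rintro ⟨g', h⟩
        exact ⟨g' * g, by rw [act_mul]; exact h⟩
      · rintro ⟨g', h⟩
        refine ⟨g' * g⁻¹, ?_⟩
        rw [act_mul, act_inv]
        exact h
    rw [if_congr h1 rfl rfl]

end places

section family

variable {p : ℕ} [Fact p.Prime] {κ : Type} {E : κ → Type} [∀ k, Field (E k)]
  [∀ k, NumberField (E k)] [∀ k, IsCMField (E k)] {s : ℕ} {f : Fin s → κ} {α : ∀ j, E (f j)}
  {n : Fin s → ℕ} {N : ℕ}

theorem exists_family (k : κ) (σ : E k →+* PadicAlgCl p) :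
    ∃ τ : (∀ k, E k →+* PadicAlgCl p), τ k = σ := by
  classical
  have hne : ∀ k, Nonempty (E k →+* PadicAlgCl p) := fun k =>
    ⟨(IsAlgClosed.lift : E k →ₐ[ℚ] PadicAlgCl p).toRingHom⟩
  exact ⟨Function.update (fun k => (hne k).some) k σ, Function.update_self _ _ _⟩

theorem logp_pos : (0 : ℝ) < Real.log p :=
  Real.log_pos (by exact_mod_cast (Fact.out : p.Prime).one_lt)

theorem const_ne (hN : 0 < N) : (Real.log p / (2 * N) : ℝ) ≠ 0 := by
  have h1 : (0 : ℝ) < N := by exact_mod_cast hN
  exact (div_pos logp_pos (by positivity)).ne'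

theorem polygon_unique (hN : 0 < N) {j : Fin s} {k : κ} {h h' : (E k →+* PadicAlgCl p) → ℤ}
    (h1 : HasPolygon p α n N j k h) (h2 : HasPolygon p α n N j k h') : h = h' := by
  funext σ
  obtain ⟨τ, rfl⟩ := exists_family k σ
  have h3 := (h1.2 τ).symm.trans (h2.2 τ)
  have h4 : ((h (τ k) : ℝ) - h' (τ k)) * (Real.log p / (2 * N)) = 0 := by
    have : ((h (τ k) : ℝ) - h' (τ k)) * (Real.log p / (2 * N)) =
      (h (τ k) : ℝ) / (2 * N) * Real.log p - (h' (τ k) : ℝ) / (2 * N) * Real.log p := by ring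
    rw [this, h3, sub_self]
  have h5 := (mul_eq_zero.1 h4).resolve_right (const_ne hN)
  have h6 : (h (τ k) : ℝ) = h' (τ k) := sub_eq_zero.1 h5
  exact_mod_cast h6

/-- the chosen polygons -/
theorem exists_polygons (hc : IsComplete p α n N) (k : κ) :
    ∃ H : Fin s → (E k →+* PadicAlgCl p) → ℤ, ∀ j, f j = k →
      IsNewton p (E k) N (H j) ∧ HasPolygon p α n N j k (H j) := by
  have h1 : ∀ j, ∃ h : (E k →+* PadicAlgCl p) → ℤ, f j = k →
      IsNewton p (E k) N h ∧ HasPolygon p α n N j k h := by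
    intro j
    by_cases hj : f j = k
    · subst hj
      obtain ⟨h, h1⟩ := hc.polygon j
      exact ⟨h, fun _ => h1⟩
    · exact ⟨0, fun h => absurd h hj⟩
  choose H hH using h1
  exact ⟨H, hH⟩

/-- the relations in terms of the polygons -/
theorem rel_sum {k : κ} {H : Fin s → (E k →+* PadicAlgCl p) → ℤ}
    (hH : ∀ j, f j = k → IsNewton p (E k) N (H j) ∧ HasPolygon p α n N j k (H j))
    {c : Fin s → ℤ} (hoff : ∀ j, f j ≠ k → c j = 0) (τ : ∀ k, E k →+* PadicAlgCl p) :
    ∑ j, (c j : ℝ) * slope p α n j τ =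
      ((∑ j, c j * H j (τ k) : ℤ) : ℝ) * (Real.log p / (2 * N)) := by
  push_cast
  rw [Finset.sum_mul]
  refine Finset.sum_congr rfl fun j _ => ?_
  by_cases hj : f j = k
  · rw [(hH j hj).2.2 τ]
    ring
  · rw [hoff j hj]
    simp

/-- **The relations of a complete family are generated by the short ones.** -/
theorem closure_complete (hc : IsComplete p α n N) (k : κ) :
    AddSubgroup.closure {c | c ∈ relations p α n k ∧ Short c} = relations p α n k := by
  classical
  obtain ⟨H, hH⟩ := exists_polygons hc k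
  by_cases hex : ∃ h₀, IsNewton p (E k) N h₀
  · obtain ⟨h₀, h0⟩ := hex
    have : Finite (Cl p (E k)) := Quotient.finite _
    have : Fintype (PP p (E k)) := Fintype.ofFinite _
    refine closure_short (P := PP p (E k)) (M := fun _ => N) (I := fun j => f j = k)
      (a := fun j q => H j (rp q.1)) ?_ ?_ ?_
    · intro j hj q
      exact ⟨(hH j hj).1.bound _, (hH j hj).1.integral _⟩
    · intro v hv
      obtain ⟨j, hj | hj⟩ := hc.all k _ (fn_newton h0 hv)
      · refine ⟨j, hj.1, Or.inl ?_⟩
        funext q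
        rw [polygon_unique hc.pos (hH j hj.1).2 hj, fn_rp]
      · refine ⟨j, hj.1, Or.inr ?_⟩
        funext q
        rw [polygon_unique hc.pos (hH j hj.1).2 hj]
        change - fn v (rp q.1) = - v q
        rw [fn_rp]
    · intro c
      rw [mem_relations]
      refine and_congr_right fun hoff => ?_
      constructor
      · intro h1 q
        obtain ⟨τ, hτ⟩ := exists_family k (rp q.1)
        have h2 := h1 τ
        rw [phi_apply, rel_sum hH hoff τ, hτ] at h2
        have h3 := (mul_eq_zero.1 h2).resolve_right (const_ne hc.pos)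
        exact_mod_cast h3
      · intro h1 τ
        rw [phi_apply, rel_sum hH hoff τ]
        have h2 : ∑ j, c j * H j (τ k) = 0 := by
          by_cases hsc : SC (rp (mkc (τ k)))
          · refine Finset.sum_eq_zero fun j _ => ?_
            by_cases hj : f j = k
            · obtain ⟨ε, hε⟩ := newton_rp (τ k)
              rw [hε N _ (hH j hj).1, newton_sc (hH j hj).1 hsc, mul_zero, mul_zero]
            · rw [hoff j hj, zero_mul]
          · obtain ⟨ε, hε⟩ := newton_rp (τ k)
            have h3 : ∀ j, c j * H j (τ k) = ε * (c j * H j (rp (mkc (τ k)))) := by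
              intro j
              by_cases hj : f j = k
              · rw [hε N _ (hH j hj).1]
                ring
              · rw [hoff j hj]
                ring
            rw [Finset.sum_congr rfl fun j _ => h3 j, ← Finset.mul_sum, h1 ⟨_, hsc⟩, mul_zero]
        rw [h2, Int.cast_zero, zero_mul]
  · have h1 : relations p α n k = ⊥ := by
      rw [eq_bot_iff]
      intro c hc'
      rw [AddSubgroup.mem_bot]
      funext j
      by_cases hj : f j = k
      · exact absurd ⟨_, (hH j hj).1⟩ hex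
      · exact hc'.1 j hj
    rw [h1, eq_bot_iff]
    exact (AddSubgroup.closure_le _).2 fun c hc' => hc'.1

/-- the lengths of the relations are even for odd `N` -/
theorem even_len (hc : IsComplete p α n N) (hN : Odd N) {k : κ} {c : Fin s → ℤ}
    (h : c ∈ relations p α n k) : Even (len c) := by
  classical
  obtain ⟨H, hH⟩ := exists_polygons hc k
  have hne : Nonempty (E k →+* PadicAlgCl p) :=
    ⟨(IsAlgClosed.lift : E k →ₐ[ℚ] PadicAlgCl p).toRingHom⟩
  obtain ⟨σ⟩ := hne
  obtain ⟨τ, hτ⟩ := exists_family k σ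
  obtain ⟨hoff, h1⟩ := mem_relations.1 h
  have h2 := h1 τ
  rw [phi_apply, rel_sum hH hoff τ] at h2
  have h3 := (mul_eq_zero.1 h2).resolve_right (const_ne hc.pos)
  have h4 : ∑ j, c j * H j (τ k) = 0 := by exact_mod_cast h3
  have h5 : Even (∑ j, (c j * H j (τ k) - c j)) := by
    refine Finset.even_sum _ fun j _ => ?_
    by_cases hj : f j = k
    · have h6 := (hH j hj).1.integral (τ k)
      have h7 : Even (H j (τ k) - 1) := by
        obtain ⟨m, hm⟩ := h6
        obtain ⟨r, hr⟩ := hN
        refine ⟨r - m, ?_⟩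
        have : ((N : ℕ) : ℤ) = 2 * r + 1 := by exact_mod_cast hr
        linarith
      rw [show c j * H j (τ k) - c j = c j * (H j (τ k) - 1) by ring]
      exact h7.mul_left _
    · rw [hoff j hj]
      simp
  rw [Finset.sum_sub_distrib, h4, zero_sub, even_neg] at h5
  have h6 := (len_parity c).add (b := (tot c : ℤ)) h5
  rw [sub_add_cancel] at h6
  exact_mod_cast h6

end family

end Pool.Agent.Run7.h142.CT
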